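import Mathlib

/-!
# Gelfand numbers versus Hilbert numbers for Hilbert domains, without oversampling

For a real Hilbert space `X`, a real normed space `Y`, `S : X → Y` bounded linear and `n ≥ 1`,
`c_{n-1}(S, B_X) ≤ (∏_{k<n} c_k(S,B_X))^{1/n} ≤ √n (∏_{k<n} h_k(S,B_X))^{1/n}`.
-/

open scoped InnerProductSpace
open Module

namespace Pool.Agent.Results.MP_93c8fe_an.HilbertDomain

/-- The Hilbert space `ℓ²` over `ℝ`. -/
abbrev Ell2 : Type := lp (fun _ : ℕ => ℝ) 2

section Definitions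

variable {X Y : Type*} [NormedAddCommGroup X] [NormedSpace ℝ X]
  [NormedAddCommGroup Y] [NormedSpace ℝ Y]

/-- `sup {½‖S f - S g‖ : f, g ∈ F, L_k f = L_k g for all k}` -/
noncomputable def radius {n : ℕ} (S : X →L[ℝ] Y) (F : Set X) (L : Fin n → X →L[ℝ] ℝ) : ℝ :=
  sSup {r | ∃ f ∈ F, ∃ g ∈ F, (∀ k, L k f = L k g) ∧ r = 1 / 2 * ‖S f - S g‖}

/-- The Gelfand number `c_n(S, F)`. -/
noncomputable def gelfand (n : ℕ) (S : X →L[ℝ] Y) (F : Set X) : ℝ :=
  sInf {r | ∃ L : Fin n → X →L[ℝ] ℝ, r = radius S F L}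

/-- The Hilbert number `h_n(S, F)`. -/
noncomputable def hilbert (n : ℕ) (S : X →L[ℝ] Y) (F : Set X) : ℝ :=
  sSup {r | ∃ (B : Y →L[ℝ] Ell2) (A : Ell2 →L[ℝ] X) (x : X), ‖B‖ ≤ 1 ∧ x ∈ F ∧
    (∀ ξ ∈ Metric.closedBall (0 : Ell2) 1, A ξ + x ∈ F) ∧
    r = gelfand n (B.comp (S.comp A)) (Metric.closedBall (0 : Ell2) 1)}

end Definitions

section Basic

variable {X Y : Type*} [NormedAddCommGroup X] [NormedSpace ℝ X]
  [NormedAddCommGroup Y] [NormedSpace ℝ Y]

lemma half_le (S : X →L[ℝ] Y) {f g : X} (hf : f ∈ Metric.closedBall (0 : X) 1)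
    (hg : g ∈ Metric.closedBall (0 : X) 1) : 1 / 2 * ‖S f - S g‖ ≤ ‖S‖ := by
  have hf1 : ‖f‖ ≤ 1 := by simpa using hf
  have hg1 : ‖g‖ ≤ 1 := by simpa using hg
  have h1 : ‖S f - S g‖ ≤ ‖S‖ * ‖f - g‖ := by rw [← map_sub]; exact S.le_opNorm _
  have h2 : ‖f - g‖ ≤ 2 := (norm_sub_le _ _).trans (by linarith)
  have h3 : ‖S‖ * ‖f - g‖ ≤ ‖S‖ * 2 := mul_le_mul_of_nonneg_left h2 (norm_nonneg _)
  linarith

lemma bdd_radius {n : ℕ} (S : X →L[ℝ] Y) (L : Fin n → X →L[ℝ] ℝ) :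
    BddAbove {r | ∃ f ∈ Metric.closedBall (0 : X) 1, ∃ g ∈ Metric.closedBall (0 : X) 1,
      (∀ k, L k f = L k g) ∧ r = 1 / 2 * ‖S f - S g‖} := by
  refine ⟨‖S‖, ?_⟩
  rintro _ ⟨f, hf, g, hg, _, rfl⟩
  exact half_le S hf hg

lemma radius_nonneg {n : ℕ} (S : X →L[ℝ] Y) (F : Set X) (L : Fin n → X →L[ℝ] ℝ) :
    0 ≤ radius S F L := by
  apply Real.sSup_nonneg
  rintro _ ⟨f, _, g, _, _, rfl⟩
  positivity

lemma le_radius {n : ℕ} (S : X →L[ℝ] Y) (L : Fin n → X →L[ℝ] ℝ) {f g : X} (hf : ‖f‖ ≤ 1)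
    (hg : ‖g‖ ≤ 1) (h : ∀ k, L k f = L k g) :
    1 / 2 * ‖S f - S g‖ ≤ radius S (Metric.closedBall 0 1) L :=
  le_csSup (bdd_radius S L) ⟨f, by simpa using hf, g, by simpa using hg, h, rfl⟩

lemma radius_le {n : ℕ} (S : X →L[ℝ] Y) (L : Fin n → X →L[ℝ] ℝ) :
    radius S (Metric.closedBall 0 1) L ≤ ‖S‖ := by
  apply csSup_le
  · exact ⟨_, 0, by simp, 0, by simp, fun _ => rfl, rfl⟩
  · rintro _ ⟨f, hf, g, hg, _, rfl⟩
    exact half_le S hf hg

lemma bdd_gelfand (n : ℕ) (S : X →L[ℝ] Y) (F : Set X) :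
    BddBelow {r | ∃ L : Fin n → X →L[ℝ] ℝ, r = radius S F L} := by
  refine ⟨0, ?_⟩
  rintro _ ⟨L, rfl⟩
  exact radius_nonneg S F L

lemma gelfand_nonneg (n : ℕ) (S : X →L[ℝ] Y) (F : Set X) : 0 ≤ gelfand n S F := by
  apply Real.sInf_nonneg
  rintro _ ⟨L, rfl⟩
  exact radius_nonneg S F L

lemma gelfand_le_radius {n : ℕ} (S : X →L[ℝ] Y) (F : Set X) (L : Fin n → X →L[ℝ] ℝ) :
    gelfand n S F ≤ radius S F L :=
  csInf_le (bdd_gelfand n S F) ⟨L, rfl⟩

lemma gelfand_le_norm (n : ℕ) (S : X →L[ℝ] Y) : gelfand n S (Metric.closedBall 0 1) ≤ ‖S‖ :=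
  (gelfand_le_radius S _ 0).trans (radius_le S _)

lemma le_gelfand {n : ℕ} {S : X →L[ℝ] Y} {F : Set X} {t : ℝ}
    (h : ∀ L : Fin n → X →L[ℝ] ℝ, t ≤ radius S F L) : t ≤ gelfand n S F := by
  apply le_csInf
  · exact ⟨_, 0, rfl⟩
  · rintro _ ⟨L, rfl⟩
    exact h L

lemma gelfand_antitone (S : X →L[ℝ] Y) :
    Antitone fun n => gelfand n S (Metric.closedBall 0 1) := by
  apply antitone_nat_of_succ_le
  intro n
  apply le_gelfand
  intro L
  refine (gelfand_le_radius S _ (Fin.cons 0 L)).trans ?_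
  apply csSup_le
  · exact ⟨_, 0, by simp, 0, by simp, fun _ => rfl, rfl⟩
  · rintro _ ⟨f, hf, g, hg, h, rfl⟩
    apply le_radius S L (by simpa using hf) (by simpa using hg)
    intro k
    have := h k.succ
    simpa using this

lemma norm_le_one_of_ball {A : Ell2 →L[ℝ] X} {x : X}
    (h : ∀ ξ ∈ Metric.closedBall (0 : Ell2) 1, A ξ + x ∈ Metric.closedBall (0 : X) 1) :
    ‖A‖ ≤ 1 := by
  apply ContinuousLinearMap.opNorm_le_of_unit_norm zero_le_one
  intro ξ hξ
  have h1 := h ξ (by simp [hξ])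
  have h2 := h (-ξ) (by simp [hξ])
  simp only [mem_closedBall_zero_iff, map_neg] at h1 h2
  have h3 : (2 : ℝ) • A ξ = (A ξ + x) - (-A ξ + x) := by rw [two_smul]; abel
  have h4 : ‖(2 : ℝ) • A ξ‖ ≤ 2 := by
    rw [h3]
    exact (norm_sub_le _ _).trans (by linarith)
  rw [norm_smul] at h4
  norm_num at h4
  linarith

lemma bdd_hilbert (n : ℕ) (S : X →L[ℝ] Y) :
    BddAbove {r | ∃ (B : Y →L[ℝ] Ell2) (A : Ell2 →L[ℝ] X) (x : X), ‖B‖ ≤ 1 ∧
      x ∈ Metric.closedBall (0 : X) 1 ∧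
      (∀ ξ ∈ Metric.closedBall (0 : Ell2) 1, A ξ + x ∈ Metric.closedBall (0 : X) 1) ∧
      r = gelfand n (B.comp (S.comp A)) (Metric.closedBall (0 : Ell2) 1)} := by
  refine ⟨‖S‖, ?_⟩
  rintro _ ⟨B, A, x, hB, _, hA, rfl⟩
  have hA1 := norm_le_one_of_ball hA
  refine (gelfand_le_norm _ _).trans ?_
  refine (ContinuousLinearMap.opNorm_comp_le _ _).trans ?_
  have h1 := ContinuousLinearMap.opNorm_comp_le S A
  have h2 : ‖S‖ * ‖A‖ ≤ ‖S‖ := mul_le_of_le_one_right (norm_nonneg _) hA1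
  calc ‖B‖ * ‖S.comp A‖ ≤ 1 * ‖S‖ := mul_le_mul hB (h1.trans h2) (norm_nonneg _) zero_le_one
    _ = ‖S‖ := one_mul _

lemma le_hilbert (n : ℕ) (S : X →L[ℝ] Y) {A : Ell2 →L[ℝ] X} {B : Y →L[ℝ] Ell2}
    (hA : ‖A‖ ≤ 1) (hB : ‖B‖ ≤ 1) :
    gelfand n (B.comp (S.comp A)) (Metric.closedBall (0 : Ell2) 1) ≤
      hilbert n S (Metric.closedBall 0 1) := by
  apply le_csSup (bdd_hilbert n S)
  refine ⟨B, A, 0, hB, by simp, ?_, rfl⟩
  intro ξ hξ
  simp only [mem_closedBall_zero_iff, add_zero] at hξ ⊢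
  exact (A.le_opNorm ξ).trans (mul_le_one₀ hA (norm_nonneg _) hξ)

lemma hilbert_nonneg (n : ℕ) (S : X →L[ℝ] Y) (F : Set X) : 0 ≤ hilbert n S F := by
  apply Real.sSup_nonneg
  rintro _ ⟨B, A, x, _, _, _, rfl⟩
  exact gelfand_nonneg _ _ _

end Basic

/-! ### Singular values and Hilbert numbers -/

section Singular

/-- an isometric copy of `ℝ^N` in `ℓ²` -/
noncomputable def iso (N : ℕ) : EuclideanSpace ℝ (Fin N) →ₗᵢ[ℝ] Ell2 :=
  LinearMap.isometryOfOrthonormal
    ((EuclideanSpace.basisFun (Fin N) ℝ).toBasis.constr ℝ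
      (fun i : Fin N => (lp.single 2 (i : ℕ) (1 : ℝ) : Ell2)))
    (v := (EuclideanSpace.basisFun (Fin N) ℝ).toBasis)
    (by
      rw [OrthonormalBasis.coe_toBasis]
      exact (EuclideanSpace.basisFun (Fin N) ℝ).orthonormal)
    (by
      rw [orthonormal_iff_ite]
      intro i j
      simp only [Function.comp_apply, Basis.constr_basis]
      rw [lp.inner_single_left, lp.single_apply]
      by_cases h : i = j
      · subst h; simp
      · have : (i : ℕ) ≠ (j : ℕ) := fun hh => h (Fin.ext hh)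
        simp [h, this])

/-- a vector on which the first `k` functionals vanish and `f` is at least its singular value -/
lemma exists_vec {N : ℕ} (f : EuclideanSpace ℝ (Fin N) →ₗ[ℝ] EuclideanSpace ℝ (Fin N)) (k : Fin N)
    (u : Fin k → EuclideanSpace ℝ (Fin N) →ₗ[ℝ] ℝ) :
    ∃ v, ‖v‖ = 1 ∧ (∀ j, u j v = 0) ∧ f.singularValues k ≤ ‖f v‖ := by
  have hn : finrank ℝ (EuclideanSpace ℝ (Fin N)) = N := by simp
  have hT := f.isSymmetric_adjoint_comp_self
  set b := hT.eigenvectorBasis hn with hb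
  set ev := hT.eigenvalues hn with hev
  let g : Fin (k + 1) → Fin N := Fin.castLE (by have := k.2; omega)
  have hginj : Function.Injective g := Fin.castLE_injective _
  have hon : Orthonormal ℝ (fun i => b (g i)) := b.orthonormal.comp g hginj
  let vecL : (Fin (k + 1) → ℝ) →ₗ[ℝ] EuclideanSpace ℝ (Fin N) :=
    Fintype.linearCombination ℝ (fun i => b (g i))
  have hvec : ∀ c, vecL c = ∑ i, c i • b (g i) := fun c => Fintype.linearCombination_apply _ _ _
  let L : (Fin (k + 1) → ℝ) →ₗ[ℝ] (Fin k → ℝ) := LinearMap.pi fun j => (u j).comp vecL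
  have hker : LinearMap.ker L ≠ ⊥ := by
    apply LinearMap.ker_ne_bot_of_finrank_lt
    simp
  obtain ⟨c, hc, hc0⟩ := Submodule.exists_mem_ne_zero_of_ne_bot hker
  have hu : ∀ j, u j (vecL c) = 0 := fun j => congrFun (LinearMap.mem_ker.mp hc) j
  set v := vecL c with hv
  have hnorm : ‖v‖ ^ 2 = ∑ i, ‖c i‖ ^ 2 := by
    rw [← inner_self_eq_norm_sq (𝕜 := ℝ), hv, hvec, hon.inner_sum, map_sum]
    apply Finset.sum_congr rfl
    intro i _
    rw [RCLike.conj_mul, ← RCLike.ofReal_pow, RCLike.ofReal_re]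
  have hfv : ‖f v‖ ^ 2 = ∑ i, ev (g i) * ‖c i‖ ^ 2 := by
    have h1 : ‖f v‖ ^ 2 = RCLike.re ⟪v, (LinearMap.adjoint f ∘ₗ f) v⟫_ℝ := by
      rw [LinearMap.comp_apply, LinearMap.adjoint_inner_right, inner_self_eq_norm_sq]
    have h2 : (LinearMap.adjoint f ∘ₗ f) v = ∑ i, (c i * (ev (g i) : ℝ)) • b (g i) := by
      rw [hv, hvec, map_sum]
      apply Finset.sum_congr rfl
      intro i _
      rw [map_smul, hb, hT.apply_eigenvectorBasis, smul_smul]
      rfl
    rw [h1, h2, hv, hvec, hon.inner_sum, map_sum]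
    apply Finset.sum_congr rfl
    intro i _
    simp only [RCLike.conj_to_real, RCLike.re_to_real, Real.norm_eq_abs, sq_abs]
    ring
  have hle : f.singularValues k ^ 2 * ‖v‖ ^ 2 ≤ ‖f v‖ ^ 2 := by
    rw [f.sq_singularValues_fin hn k, hfv, hnorm, Finset.mul_sum]
    apply Finset.sum_le_sum
    intro i _
    refine mul_le_mul_of_nonneg_right ?_ (sq_nonneg _)
    apply hT.eigenvalues_antitone hn
    exact Fin.le_def.mpr (Nat.lt_succ_iff.mp i.2)
  have hpos : 0 < ‖v‖ := by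
    have h1 : ‖v‖ ≠ 0 := by
      intro h0
      rw [h0] at hnorm
      apply hc0
      funext i
      have h2 : ∑ i, ‖c i‖ ^ 2 = 0 := by rw [← hnorm]; norm_num
      rw [Finset.sum_eq_zero_iff_of_nonneg (fun _ _ => sq_nonneg _)] at h2
      have h3 := h2 i (Finset.mem_univ i)
      exact norm_eq_zero.mp (pow_eq_zero_iff (two_ne_zero) |>.mp h3)
    exact lt_of_le_of_ne (norm_nonneg _) h1.symm
  refine ⟨‖v‖⁻¹ • v, ?_, ?_, ?_⟩
  · rw [norm_smul, Real.norm_eq_abs, abs_of_nonneg (by positivity), inv_mul_cancel₀ hpos.ne']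
  · intro j
    rw [map_smul, hu, smul_zero]
  · rw [map_smul, norm_smul, Real.norm_eq_abs, abs_of_nonneg (by positivity)]
    have h1 : f.singularValues k * ‖v‖ ≤ ‖f v‖ := by
      apply le_of_sq_le_sq _ (norm_nonneg _)
      rw [mul_pow]; exact hle
    rw [inv_mul_eq_div, le_div_iff₀ hpos]
    exact h1

lemma singular_le {N : ℕ} {X Y : Type*} [NormedAddCommGroup X] [NormedSpace ℝ X]
    [NormedAddCommGroup Y] [NormedSpace ℝ Y] (S : X →L[ℝ] Y)
    (A : EuclideanSpace ℝ (Fin N) →L[ℝ] X) (B : Y →L[ℝ] EuclideanSpace ℝ (Fin N))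
    (hA : ‖A‖ ≤ 1) (hB : ‖B‖ ≤ 1) (k : Fin N) :
    ((B.comp (S.comp A)).toLinearMap).singularValues k ≤
      hilbert k S (Metric.closedBall 0 1) := by
  set ι := (iso N).toContinuousLinearMap with hι
  set π := ContinuousLinearMap.adjoint ι with hπ
  have hι1 : ‖ι‖ ≤ 1 := (iso N).norm_toContinuousLinearMap_le
  have hπ1 : ‖π‖ ≤ 1 := by rw [hπ, LinearIsometryEquiv.norm_map]; exact hι1
  have hπι : ∀ v, π (ι v) = v := by
    intro v
    have h := LinearIsometry.adjoint_comp_self (iso N)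
    have h2 := congrArg (fun T => T v) h
    exact h2
  have hA' : ‖A.comp π‖ ≤ 1 :=
    (ContinuousLinearMap.opNorm_comp_le _ _).trans (mul_le_one₀ hA (norm_nonneg _) hπ1)
  have hB' : ‖ι.comp B‖ ≤ 1 :=
    (ContinuousLinearMap.opNorm_comp_le _ _).trans (mul_le_one₀ hι1 (norm_nonneg _) hB)
  refine le_trans ?_ (le_hilbert k S hA' hB')
  apply le_gelfand
  intro u
  obtain ⟨v, hv1, hv2, hv3⟩ := exists_vec (B.comp (S.comp A)).toLinearMap k
    (fun j => ((u j).comp ι).toLinearMap)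
  set T := (ι.comp B).comp (S.comp (A.comp π)) with hT
  have hTv : ‖T (ι v)‖ = ‖(B.comp (S.comp A)).toLinearMap v‖ := by
    have : T (ι v) = ι (B (S (A v))) := by
      rw [hT]
      simp only [ContinuousLinearMap.comp_apply, hπι]
    rw [this]
    exact (iso N).norm_map _
  have hιv : ‖ι v‖ = 1 := by rw [← hv1]; exact (iso N).norm_map v
  have hu : ∀ j, u j (ι v) = 0 := hv2
  have h1 := le_radius T u (f := ι v) (g := -ι v) hιv.le (by rw [norm_neg]; exact hιv.le)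
    (fun j => by rw [map_neg, hu, neg_zero])
  have h2 : 1 / 2 * ‖T (ι v) - T (-ι v)‖ = ‖T (ι v)‖ := by
    have : T (ι v) - T (-ι v) = (2 : ℝ) • T (ι v) := by rw [map_neg, two_smul]; abel
    rw [this, norm_smul, Real.norm_eq_abs, abs_of_pos two_pos]; ring
  rw [h2, hTv] at h1
  exact hv3.trans h1

end Singular

/-! ### Determinants -/

section Det

variable {X Y : Type*} [NormedAddCommGroup X] [InnerProductSpace ℝ X]
  [NormedAddCommGroup Y] [NormedSpace ℝ Y]

/-- The determinant of `(φ_i(S e_j))` for orthonormal `e_j` and `φ_i ∈ B_{Y'}`. -/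
lemma det_le_prod {N : ℕ} (S : X →L[ℝ] Y) {e : Fin N → X} {φ : Fin N → Y →L[ℝ] ℝ}
    (he : Orthonormal ℝ e) (hφ : ∀ i, ‖φ i‖ ≤ 1) :
    |(Matrix.of fun i j => φ i (S (e j))).det| ≤
      (Real.sqrt N) ^ N * ∏ k ∈ Finset.range N, hilbert k S (Metric.closedBall 0 1) := by
  rcases Nat.eq_zero_or_pos N with rfl | hN
  · simp
  have hN0 : (0 : ℝ) < N := by exact_mod_cast hN
  have hs0 : 0 < Real.sqrt N := Real.sqrt_pos.2 hN0
  let A : EuclideanSpace ℝ (Fin N) →L[ℝ] X := LinearMap.mkContinuous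
    { toFun := fun ξ => ∑ i, ξ i • e i
      map_add' := fun ξ η => by simp [add_smul, Finset.sum_add_distrib]
      map_smul' := fun c ξ => by simp [mul_smul, Finset.smul_sum] } 1 (fun ξ => by
        rw [one_mul]
        apply le_of_sq_le_sq _ (norm_nonneg _)
        change ‖∑ i, ξ i • e i‖ ^ 2 ≤ _
        rw [EuclideanSpace.real_norm_sq_eq, ← real_inner_self_eq_norm_sq, he.inner_sum]
        apply le_of_eq
        apply Finset.sum_congr rfl; intro i _
        simp [pow_two])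
  have hA : ‖A‖ ≤ 1 := LinearMap.mkContinuous_norm_le _ zero_le_one _
  let B : Y →L[ℝ] EuclideanSpace ℝ (Fin N) := LinearMap.mkContinuous
    { toFun := fun y => WithLp.toLp 2 (fun i => (Real.sqrt N)⁻¹ * φ i y)
      map_add' := fun y z => by ext i; simp [mul_add]
      map_smul' := fun c y => by ext i; simp; ring } 1 (fun y => by
        rw [one_mul]
        apply le_of_sq_le_sq _ (norm_nonneg _)
        rw [EuclideanSpace.real_norm_sq_eq]
        change ∑ i, ((Real.sqrt N)⁻¹ * φ i y) ^ 2 ≤ _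
        have h1 : ∀ i, ((Real.sqrt N)⁻¹ * φ i y) ^ 2 ≤ (N : ℝ)⁻¹ * ‖y‖ ^ 2 := by
          intro i
          rw [mul_pow, inv_pow, Real.sq_sqrt hN0.le]
          apply mul_le_mul_of_nonneg_left _ (by positivity)
          rw [← sq_abs (φ i y)]
          apply pow_le_pow_left₀ (abs_nonneg _)
          rw [← Real.norm_eq_abs]
          refine ((φ i).le_opNorm y).trans ?_
          exact mul_le_of_le_one_left (norm_nonneg _) (hφ i)
        refine (Finset.sum_le_sum fun i _ => h1 i).trans ?_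
        rw [Finset.sum_const, Finset.card_univ, Fintype.card_fin, nsmul_eq_mul, ← mul_assoc,
          mul_inv_cancel₀ hN0.ne', one_mul])
  have hB : ‖B‖ ≤ 1 := LinearMap.mkContinuous_norm_le _ zero_le_one _
  set f := (B.comp (S.comp A)).toLinearMap with hf
  have hdet : LinearMap.det f = ((Real.sqrt N)⁻¹ • (Matrix.of fun i j => φ i (S (e j)))).det := by
    rw [← LinearMap.det_toMatrix (EuclideanSpace.basisFun (Fin N) ℝ).toBasis]
    congr 1
    ext i j
    rw [LinearMap.toMatrix_apply]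
    simp [f, A, B]
  rw [Matrix.det_smul, Fintype.card_fin] at hdet
  have h1 : |LinearMap.det f| ≤ ∏ k ∈ Finset.range N, hilbert k S (Metric.closedBall 0 1) := by
    rw [← Real.norm_eq_abs, ← LinearMap.normDet_eq_norm_det,
      LinearMap.normDet_eq_prod_singularValues]
    have hn : finrank ℝ (EuclideanSpace ℝ (Fin N)) = N := by simp
    rw [hn]
    apply Finset.prod_le_prod
    · intro i _
      exact f.singularValues_nonneg i
    · intro i hi
      exact singular_le S A B hA hB ⟨i, Finset.mem_range.mp hi⟩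
  rw [hdet, abs_mul, abs_pow, abs_of_pos (inv_pos.2 hs0)] at h1
  calc |(Matrix.of fun i j => φ i (S (e j))).det|
      = (Real.sqrt N) ^ N * (((Real.sqrt N)⁻¹) ^ N *
          |(Matrix.of fun i j => φ i (S (e j))).det|) := by
        rw [← mul_assoc, ← mul_pow, mul_inv_cancel₀ hs0.ne', one_pow, one_mul]
    _ ≤ _ := mul_le_mul_of_nonneg_left h1 (by positivity)

variable [CompleteSpace X]

/-- the Riesz representer of `φ ∘ S` -/
noncomputable def rep (S : X →L[ℝ] Y) (φ : Y →L[ℝ] ℝ) : X :=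
  (InnerProductSpace.toDual ℝ X).symm (φ.comp S)

lemma inner_rep (S : X →L[ℝ] Y) (φ : Y →L[ℝ] ℝ) (x : X) : ⟪rep S φ, x⟫_ℝ = φ (S x) := by
  rw [rep, InnerProductSpace.toDual_symm_apply]; rfl

omit [CompleteSpace X] in
/-- one step of the greedy choice -/
lemma step {k : ℕ} (S : X →L[ℝ] Y) {t : ℝ} (ht : t < gelfand k S (Metric.closedBall 0 1))
    (φ : Fin k → Y →L[ℝ] ℝ) :
    ∃ (ψ : Y →L[ℝ] ℝ) (h : X), ‖ψ‖ ≤ 1 ∧ ‖h‖ ≤ 1 ∧ (∀ j, φ j (S h) = 0) ∧ t < ψ (S h) := by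
  have h1 := ht.trans_le (gelfand_le_radius S (Metric.closedBall 0 1) (fun j => (φ j).comp S))
  unfold radius at h1
  have hne : {r | ∃ f ∈ Metric.closedBall (0 : X) 1, ∃ g ∈ Metric.closedBall (0 : X) 1,
      (∀ k : Fin k, ((φ k).comp S) f = ((φ k).comp S) g) ∧ r = 1 / 2 * ‖S f - S g‖}.Nonempty :=
    ⟨_, 0, by simp, 0, by simp, fun _ => rfl, rfl⟩
  obtain ⟨r, ⟨f, hf, g, hg, hfg, rfl⟩, h2⟩ := exists_lt_of_lt_csSup hne h1
  have hf1 : ‖f‖ ≤ 1 := by simpa using hf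
  have hg1 : ‖g‖ ≤ 1 := by simpa using hg
  obtain ⟨ψ, hψ1, hψ2⟩ := exists_dual_vector'' ℝ (S ((1 / 2 : ℝ) • (f - g)))
  refine ⟨ψ, (1 / 2 : ℝ) • (f - g), hψ1, ?_, ?_, ?_⟩
  · rw [norm_smul, Real.norm_eq_abs, abs_of_pos (by norm_num)]
    have := norm_sub_le f g
    linarith
  · intro j
    have := hfg j
    simp only [ContinuousLinearMap.comp_apply] at this
    rw [map_smul, map_smul, map_sub, map_sub, this, sub_self, smul_zero]
  · rw [hψ2]
    have : ‖S ((1 / 2 : ℝ) • (f - g))‖ = 1 / 2 * ‖S f - S g‖ := by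
      rw [map_smul, norm_smul, map_sub, Real.norm_eq_abs, abs_of_pos (by norm_num)]
    rw [this]
    exact h2

omit [CompleteSpace X] in
/-- the greedy sequence -/
lemma greedy (S : X →L[ℝ] Y) (t : ℕ → ℝ) (n : ℕ)
    (ht : ∀ k < n, t k < gelfand k S (Metric.closedBall 0 1)) :
    ∃ φ : ℕ → Y →L[ℝ] ℝ, ∀ k < n, ‖φ k‖ ≤ 1 ∧
      ∃ h : X, ‖h‖ ≤ 1 ∧ (∀ j < k, φ j (S h) = 0) ∧ t k < φ k (S h) := by
  induction n with
  | zero => exact ⟨0, fun k hk => absurd hk (Nat.not_lt_zero k)⟩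
  | succ n ih =>
    obtain ⟨φ, hφ⟩ := ih (fun k hk => ht k (hk.trans (Nat.lt_succ_self n)))
    obtain ⟨ψ, h, hψ, hh, h1, h2⟩ := step S (ht n (Nat.lt_succ_self n)) (fun j : Fin n => φ j)
    refine ⟨Function.update φ n ψ, ?_⟩
    intro k hk
    rcases Nat.lt_succ_iff_lt_or_eq.1 hk with hk' | rfl
    · obtain ⟨h3, h', h4, h5, h6⟩ := hφ k hk'
      rw [Function.update_of_ne hk'.ne]
      refine ⟨h3, h', h4, ?_, h6⟩
      intro j hj
      rw [Function.update_of_ne (hj.trans hk').ne]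
      exact h5 j hj
    · rw [Function.update_self]
      refine ⟨hψ, h, hh, ?_, h2⟩
      intro j hj
      rw [Function.update_of_ne hj.ne]
      exact h1 ⟨j, hj⟩

lemma prod_lt (S : X →L[ℝ] Y) (t : ℕ → ℝ) (n : ℕ) (ht0 : ∀ k, 0 ≤ t k)
    (ht : ∀ k < n, t k < gelfand k S (Metric.closedBall 0 1)) :
    ∏ k ∈ Finset.range n, t k ≤
      (Real.sqrt n) ^ n * ∏ k ∈ Finset.range n, hilbert k S (Metric.closedBall 0 1) := by
  obtain ⟨φ, hφ⟩ := greedy S t n ht
  let z : Fin n → X := fun k => rep S (φ k)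
  set G := InnerProductSpace.gramSchmidt ℝ z with hG
  have hGz : ∀ i : Fin n, z i - G i ∈ Submodule.span ℝ (G '' Set.Iio i) := by
    intro i
    have h1 := InnerProductSpace.gramSchmidt_def'' ℝ z i
    have h2 : z i - G i = ∑ j ∈ Finset.Iio i, (⟪G j, z i⟫_ℝ / (‖G j‖ : ℝ) ^ 2) • G j := by
      rw [sub_eq_iff_eq_add']
      exact h1
    rw [h2]
    apply Submodule.sum_mem
    intro j hj
    apply Submodule.smul_mem
    apply Submodule.subset_span
    exact ⟨j, by simpa using hj, rfl⟩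
  have hspan : ∀ i : Fin n, Submodule.span ℝ (G '' Set.Iio i) =
      Submodule.span ℝ (z '' Set.Iio i) := fun i => InnerProductSpace.span_gramSchmidt_Iio ℝ z i
  have hGt : ∀ i : Fin n, t i < ‖G i‖ := by
    intro i
    obtain ⟨h3, h, h4, h5, h6⟩ := hφ i i.2
    have h7 : ⟪z i - G i, h⟫_ℝ = 0 := by
      have h8 := hGz i
      rw [hspan] at h8
      refine Submodule.span_induction (p := fun x _ => ⟪x, h⟫_ℝ = 0) ?_ ?_ ?_ ?_ h8
      · rintro _ ⟨j, hj, rfl⟩
        rw [inner_rep]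
        exact h5 j hj
      · simp
      · intro x y _ _ hx hy
        rw [inner_add_left, hx, hy, add_zero]
      · intro a x _ hx
        rw [inner_smul_left, hx, mul_zero]
    rw [inner_sub_left, inner_rep, sub_eq_zero] at h7
    rw [h7] at h6
    refine h6.trans_le ((real_inner_le_norm _ _).trans ?_)
    exact mul_le_of_le_one_right (norm_nonneg _) h4
  have hGpos : ∀ i : Fin n, 0 < ‖G i‖ := fun i => (ht0 i).trans_lt (hGt i)
  have horth : Pairwise fun a b => ⟪G a, G b⟫_ℝ = 0 :=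
    InnerProductSpace.gramSchmidt_pairwise_orthogonal ℝ z
  set e : Fin n → X := fun i => ‖G i‖⁻¹ • G i with he
  have heo : Orthonormal ℝ e := by
    refine ⟨fun i => ?_, fun i j hij => ?_⟩
    · rw [he]
      simp only [norm_smul, norm_inv, norm_norm]
      exact inv_mul_cancel₀ (hGpos i).ne'
    · simp only [he, real_inner_smul_left, real_inner_smul_right, horth hij, mul_zero]
  have hdet := det_le_prod S heo (φ := fun i => φ i) (fun i => (hφ i i.2).1)
  have htri : (Matrix.of fun i j : Fin n => φ i (S (e j))).BlockTriangular OrderDual.toDual := by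
    intro i j hij
    have hij' : i < j := hij
    rw [Matrix.of_apply, ← inner_rep S (φ i)]
    simp only [he, real_inner_smul_right]
    have := InnerProductSpace.gramSchmidt_inv_triangular ℝ z hij'
    rw [real_inner_comm]
    rw [this, mul_zero]
  rw [Matrix.det_of_isLowerTriangular _ htri] at hdet
  have hdiag : ∀ i : Fin n, (Matrix.of fun i j : Fin n => φ i (S (e j))) i i = ‖G i‖ := by
    intro i
    rw [Matrix.of_apply, ← inner_rep S (φ i)]
    simp only [he, real_inner_smul_right]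
    have h1 : ⟪z i, G i⟫_ℝ = ‖G i‖ ^ 2 := by
      have h2 : ⟪z i - G i, G i⟫_ℝ = 0 := by
        refine Submodule.span_induction (p := fun x _ => ⟪x, G i⟫_ℝ = 0) ?_ ?_ ?_ ?_ (hGz i)
        · rintro _ ⟨j, hj, rfl⟩
          exact horth (ne_of_lt hj)
        · simp
        · intro x y _ _ hx hy
          rw [inner_add_left, hx, hy, add_zero]
        · intro a x _ hx
          rw [inner_smul_left, hx, mul_zero]
      rw [inner_sub_left, sub_eq_zero, real_inner_self_eq_norm_sq] at h2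
      exact h2
    change ‖G i‖⁻¹ * ⟪z i, G i⟫_ℝ = ‖G i‖
    rw [h1, pow_two, ← mul_assoc, inv_mul_cancel₀ (hGpos i).ne', one_mul]
  simp only [hdiag] at hdet
  rw [abs_of_nonneg (Finset.prod_nonneg fun i _ => norm_nonneg _)] at hdet
  refine le_trans ?_ hdet
  rw [← Fin.prod_univ_eq_prod_range]
  exact Finset.prod_le_prod (fun i _ => ht0 i) (fun i _ => (hGt i).le)

lemma prod_le (S : X →L[ℝ] Y) (n : ℕ) :
    ∏ k ∈ Finset.range n, gelfand k S (Metric.closedBall 0 1) ≤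
      (Real.sqrt n) ^ n * ∏ k ∈ Finset.range n, hilbert k S (Metric.closedBall 0 1) := by
  have hR : 0 ≤ (Real.sqrt n) ^ n *
      ∏ k ∈ Finset.range n, hilbert k S (Metric.closedBall 0 1) :=
    mul_nonneg (by positivity) (Finset.prod_nonneg fun k _ => hilbert_nonneg _ _ _)
  by_cases h0 : ∃ k < n, gelfand k S (Metric.closedBall 0 1) = 0
  · obtain ⟨k, hk, h⟩ := h0
    rw [Finset.prod_eq_zero (Finset.mem_range.2 hk) h]
    exact hR
  push Not at h0
  have h1 : ∀ s : ℝ, 0 < s → s < 1 →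
      s ^ n * ∏ k ∈ Finset.range n, gelfand k S (Metric.closedBall 0 1) ≤
      (Real.sqrt n) ^ n * ∏ k ∈ Finset.range n, hilbert k S (Metric.closedBall 0 1) := by
    intro s hs0 hs1
    have h2 := prod_lt S (fun k => s * gelfand k S (Metric.closedBall 0 1)) n
      (fun k => mul_nonneg hs0.le (gelfand_nonneg _ _ _)) (fun k hk => by
        have h3 : 0 < gelfand k S (Metric.closedBall 0 1) :=
          lt_of_le_of_ne (gelfand_nonneg _ _ _) (h0 k hk).symm
        nlinarith)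
    rw [Finset.prod_mul_distrib, Finset.prod_const, Finset.card_range] at h2
    exact h2
  have h2 : Filter.Tendsto (fun s : ℝ =>
      s ^ n * ∏ k ∈ Finset.range n, gelfand k S (Metric.closedBall 0 1))
      (nhdsWithin 1 (Set.Iio 1))
      (nhds (1 ^ n * ∏ k ∈ Finset.range n, gelfand k S (Metric.closedBall 0 1))) :=
    tendsto_nhdsWithin_of_tendsto_nhds
      (Continuous.tendsto (by fun_prop) 1)
  rw [one_pow, one_mul] at h2
  refine le_of_tendsto h2 ?_
  have h3 : Set.Ioo (0 : ℝ) 1 ∈ nhdsWithin (1 : ℝ) (Set.Iio 1) :=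
    Ioo_mem_nhdsLT zero_lt_one
  filter_upwards [h3] with s hs
  exact h1 s hs.1 hs.2

end Det

/-- **Main theorem.**  For a real Hilbert space `X`, a real Banach space `Y`, a bounded linear
`S : X → Y` and `n ≥ 1`,
`c_{n-1}(S, B_X) ≤ √n (∏_{k<n} h_k(S, B_X))^{1/n}`; in fact already the geometric mean of
`c_0(S,B_X), …, c_{n-1}(S,B_X)` is at most the right-hand side. -/
theorem result (X Y : Type*) [NormedAddCommGroup X] [InnerProductSpace ℝ X] [CompleteSpace X]
    [NormedAddCommGroup Y] [NormedSpace ℝ Y] [CompleteSpace Y] (S : X →L[ℝ] Y) (n : ℕ)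
    (hn : 1 ≤ n) :
    gelfand (n - 1) S (Metric.closedBall 0 1) ≤
        (n : ℝ) ^ (1 / 2 : ℝ) *
          (∏ k ∈ Finset.range n, hilbert k S (Metric.closedBall 0 1)) ^ (1 / (n : ℝ)) ∧
      (∏ k ∈ Finset.range n, gelfand k S (Metric.closedBall 0 1)) ^ (1 / (n : ℝ)) ≤
        (n : ℝ) ^ (1 / 2 : ℝ) *
          (∏ k ∈ Finset.range n, hilbert k S (Metric.closedBall 0 1)) ^ (1 / (n : ℝ)) := by
  have hn0 : (0 : ℝ) < n := by exact_mod_cast hn
  have h1 := prod_le S n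
  have hP : 0 ≤ ∏ k ∈ Finset.range n, hilbert k S (Metric.closedBall 0 1) :=
    Finset.prod_nonneg fun k _ => hilbert_nonneg _ _ _
  have hC : 0 ≤ ∏ k ∈ Finset.range n, gelfand k S (Metric.closedBall 0 1) :=
    Finset.prod_nonneg fun k _ => gelfand_nonneg _ _ _
  have h2 : (∏ k ∈ Finset.range n, gelfand k S (Metric.closedBall 0 1)) ^ (1 / (n : ℝ)) ≤
        (n : ℝ) ^ (1 / 2 : ℝ) *
          (∏ k ∈ Finset.range n, hilbert k S (Metric.closedBall 0 1)) ^ (1 / (n : ℝ)) := by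
    have h3 := Real.rpow_le_rpow hC h1 (by positivity : 0 ≤ 1 / (n : ℝ))
    rw [Real.mul_rpow (by positivity) hP, ← Real.rpow_natCast (Real.sqrt n) n,
      ← Real.rpow_mul (Real.sqrt_nonneg _), mul_one_div_cancel hn0.ne', Real.rpow_one,
      Real.sqrt_eq_rpow] at h3
    exact h3
  refine ⟨le_trans ?_ h2, h2⟩
  have h4 : gelfand (n - 1) S (Metric.closedBall 0 1) ^ n ≤
      ∏ k ∈ Finset.range n, gelfand k S (Metric.closedBall 0 1) := by
    rw [← Finset.card_range n, ← Finset.prod_const]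
    rw [Finset.card_range]
    apply Finset.prod_le_prod (fun k _ => gelfand_nonneg _ _ _)
    intro k hk
    have := Finset.mem_range.1 hk
    exact gelfand_antitone S (by omega)
  have h5 := Real.rpow_le_rpow (pow_nonneg (gelfand_nonneg _ _ _) n) h4
    (by positivity : 0 ≤ 1 / (n : ℝ))
  rw [← Real.rpow_natCast, ← Real.rpow_mul (gelfand_nonneg _ _ _), mul_one_div_cancel hn0.ne',
    Real.rpow_one] at h5
  exact h5

end Pool.Agent.Results.MP_93c8fe_an.HilbertDomain
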